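import Pool.Agent.Y105.RS.Stm

/-!
The bound of the quadratic form (RS-FORM).
-/

set_option autoImplicit false

open Finset Equiv

namespace Pool.Agent.Y646.RS

open Pool.Agent.Y105.RS

section Basic
variable {V : Type} [Fintype V] [DecidableEq V] {m : ℕ}

/-- composition with a transposition -/
def cs (x y : V) : (V → Fin m) ≃ (V → Fin m) where
  toFun ξ := ξ ∘ swap x y
  invFun ξ := ξ ∘ swap x y
  left_inv ξ := by funext v; simp
  right_inv ξ := by funext v; simp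

lemma sum_cs (x y : V) (G : (V → Fin m) → ℝ) : ∑ ξ : V → Fin m, G (ξ ∘ swap x y) = ∑ ξ, G ξ :=
  (cs x y).sum_comp G

lemma comp_swap_twice (x y : V) (ξ : V → Fin m) : (ξ ∘ swap x y) ∘ swap x y = ξ := by
  funext v
  simp

/-- the energy of `h` at the points `x`, `y` -/
def En (h : Fin m → Fin m → ℝ) (F : (V → Fin m) → ℝ) (x y : V) : ℝ :=
  ∑ ξ : V → Fin m, h (ξ x) (ξ y) * F ξ ^ 2

/-- the Dirichlet form of a transposition -/
def Nn (F : (V → Fin m) → ℝ) (y z : V) : ℝ := ∑ ξ : V → Fin m, (F ξ - F (ξ ∘ swap y z)) ^ 2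

lemma Nn_nonneg (F : (V → Fin m) → ℝ) (y z : V) : 0 ≤ Nn F y z :=
  Finset.sum_nonneg fun _ _ => sq_nonneg _

lemma En_swap (h : Fin m → Fin m → ℝ) (F : (V → Fin m) → ℝ) {x y z : V} (hxy : x ≠ y)
    (hxz : x ≠ z) : En h F x y = ∑ ξ : V → Fin m, h (ξ x) (ξ z) * F (ξ ∘ swap y z) ^ 2 := by
  unfold En
  rw [← sum_cs y z (fun ξ => h (ξ x) (ξ y) * F ξ ^ 2)]
  refine Finset.sum_congr rfl fun ξ _ => ?_
  simp only [Function.comp_apply, swap_apply_of_ne_of_ne hxy hxz, swap_apply_left]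

lemma En_abs {h : Fin m → Fin m → ℝ} (hh : ∀ a b, |h a b| ≤ 1) (F : (V → Fin m) → ℝ) (x y : V) :
    |En h F x y| ≤ ∑ ξ : V → Fin m, F ξ ^ 2 := by
  unfold En
  refine (Finset.abs_sum_le_sum_abs _ _).trans (Finset.sum_le_sum fun ξ _ => ?_)
  rw [abs_mul, abs_of_nonneg (sq_nonneg (F ξ))]
  exact mul_le_of_le_one_left (sq_nonneg _) (hh _ _)

lemma En_diff {h : Fin m → Fin m → ℝ} (hh : ∀ a b, |h a b| ≤ 1) (F : (V → Fin m) → ℝ) {x y z : V}
    (hxy : x ≠ y) (hxz : x ≠ z) :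
    (En h F x y - En h F x z) ^ 2 ≤ 4 * (∑ ξ : V → Fin m, F ξ ^ 2) * Nn F y z := by
  have h1 : En h F x y - En h F x z = ∑ ξ : V → Fin m,
      (h (ξ x) (ξ z) * (F (ξ ∘ swap y z) + F ξ)) * (F (ξ ∘ swap y z) - F ξ) := by
    rw [En_swap h F hxy hxz]
    unfold En
    rw [← Finset.sum_sub_distrib]
    refine Finset.sum_congr rfl fun ξ _ => ?_
    ring
  rw [h1]
  refine (Finset.sum_mul_sq_le_sq_mul_sq _ _ _).trans ?_
  have h2 : ∑ ξ : V → Fin m, (F (ξ ∘ swap y z) - F ξ) ^ 2 = Nn F y z := by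
    unfold Nn
    refine Finset.sum_congr rfl fun ξ _ => ?_
    ring
  rw [h2]
  apply mul_le_mul_of_nonneg_right _ (Nn_nonneg F y z)
  have h3 : ∑ ξ : V → Fin m, F (ξ ∘ swap y z) ^ 2 = ∑ ξ : V → Fin m, F ξ ^ 2 :=
    sum_cs y z (fun ξ => F ξ ^ 2)
  calc ∑ ξ : V → Fin m, (h (ξ x) (ξ z) * (F (ξ ∘ swap y z) + F ξ)) ^ 2
      ≤ ∑ ξ : V → Fin m, (2 * F (ξ ∘ swap y z) ^ 2 + 2 * F ξ ^ 2) := by
        refine Finset.sum_le_sum fun ξ _ => ?_
        rw [mul_pow]
        have h4 : h (ξ x) (ξ z) ^ 2 ≤ 1 := by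
          rw [← sq_abs]
          have := hh (ξ x) (ξ z)
          have h5 := abs_nonneg (h (ξ x) (ξ z))
          nlinarith
        have h6 : (F (ξ ∘ swap y z) + F ξ) ^ 2 ≤ 2 * F (ξ ∘ swap y z) ^ 2 + 2 * F ξ ^ 2 := by
          nlinarith [sq_nonneg (F (ξ ∘ swap y z) - F ξ)]
        exact (mul_le_of_le_one_left (sq_nonneg _) h4).trans h6
    _ = 4 * ∑ ξ : V → Fin m, F ξ ^ 2 := by
        rw [Finset.sum_add_distrib, ← Finset.mul_sum, ← Finset.mul_sum, h3]
        ring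

/-- one pair -/
lemma pair_bound {h : Fin m → Fin m → ℝ} (hs : ∀ a b, h a b = h b a) (hh : ∀ a b, |h a b| ≤ 1)
    {θ : ℝ} (hθ : |θ| ≤ 1 / 2) (F : (V → Fin m) → ℝ) (x y : V) :
    ∑ ξ : V → Fin m, Real.exp (θ * h (ξ x) (ξ y)) * ((F ξ + F (ξ ∘ swap x y)) / 2) ^ 2 ≤
      (1 + θ ^ 2) * (∑ ξ : V → Fin m, F ξ ^ 2) + θ * En h F x y - Nn F x y / 8 := by
  have h1 : ∀ ξ : V → Fin m,
      Real.exp (θ * h (ξ x) (ξ y)) * ((F ξ + F (ξ ∘ swap x y)) / 2) ^ 2 ≤
      ((1 + θ ^ 2) * F ξ ^ 2 + (1 + θ ^ 2) * F (ξ ∘ swap x y) ^ 2) / 2 +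
      (θ * (h (ξ x) (ξ y) * F ξ ^ 2) + θ * (h (ξ x) (ξ y) * F (ξ ∘ swap x y) ^ 2)) / 2 -
      (F ξ - F (ξ ∘ swap x y)) ^ 2 / 8 := by
    intro ξ
    set H := h (ξ x) (ξ y) with hH
    have hH1 := hh (ξ x) (ξ y)
    rw [← hH] at hH1
    have hθH : |θ * H| ≤ 1 / 2 := by
      rw [abs_mul]
      calc |θ| * |H| ≤ 1 / 2 * 1 := mul_le_mul hθ hH1 (abs_nonneg _) (by norm_num)
        _ = 1 / 2 := by norm_num
    have h2 : Real.exp (θ * H) ≤ 1 + θ * H + θ ^ 2 := by
      have h3 := Real.abs_exp_sub_one_sub_id_le (x := θ * H) (hθH.trans (by norm_num))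
      have h4 := (abs_le.1 h3).2
      have h5 : (θ * H) ^ 2 ≤ θ ^ 2 := by
        rw [mul_pow]
        have h6 : H ^ 2 ≤ 1 := by
          rw [← sq_abs]
          nlinarith [abs_nonneg H]
        nlinarith [sq_nonneg θ]
      linarith
    have h3 : Real.exp (θ * H) * ((F ξ + F (ξ ∘ swap x y)) / 2) ^ 2 ≤
        (1 + θ * H + θ ^ 2) * ((F ξ + F (ξ ∘ swap x y)) / 2) ^ 2 :=
      mul_le_mul_of_nonneg_right h2 (sq_nonneg _)
    refine h3.trans ?_
    have h4 : (1 / 2 : ℝ) ≤ 1 + θ * H + θ ^ 2 := by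
      have := (abs_le.1 hθH).1
      nlinarith [sq_nonneg θ]
    nlinarith [mul_nonneg (sub_nonneg.2 h4) (sq_nonneg (F ξ - F (ξ ∘ swap x y)))]
  refine (Finset.sum_le_sum fun ξ _ => h1 ξ).trans (le_of_eq ?_)
  rw [Finset.sum_sub_distrib, Finset.sum_add_distrib, ← Finset.sum_div, ← Finset.sum_div,
    ← Finset.sum_div, Finset.sum_add_distrib, Finset.sum_add_distrib, ← Finset.mul_sum,
    ← Finset.mul_sum, ← Finset.mul_sum, ← Finset.mul_sum]
  have h3 : ∑ ξ : V → Fin m, F (ξ ∘ swap x y) ^ 2 = ∑ ξ : V → Fin m, F ξ ^ 2 :=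
    sum_cs x y (fun ξ => F ξ ^ 2)
  have h4 : ∑ ξ : V → Fin m, h (ξ x) (ξ y) * F (ξ ∘ swap x y) ^ 2 = En h F x y := by
    unfold En
    rw [← sum_cs x y (fun ξ => h (ξ x) (ξ y) * F ξ ^ 2)]
    refine Finset.sum_congr rfl fun ξ _ => ?_
    simp only [Function.comp_apply, swap_apply_left, swap_apply_right]
    rw [hs (ξ y) (ξ x)]
  rw [h3, h4]
  unfold En Nn
  ring

end Basic

theorem form : S_FORM := by
  intro V _ _ _ p r κ τ hp hr hτ hC m h hs hh θ hθ F
  obtain ⟨A, hA⟩ : ∃ A, A = ∑ ξ : V → Fin m, F ξ ^ 2 := ⟨_, rfl⟩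
  have hA0 : 0 ≤ A := by rw [hA]; exact Finset.sum_nonneg fun _ _ => sq_nonneg _
  obtain ⟨D, hD⟩ : ∃ D, D = ∑ x, ∑ y, p x y * Nn F x y := ⟨_, rfl⟩
  have hD0 : 0 ≤ D := by
    rw [hD]
    exact Finset.sum_nonneg fun x _ => Finset.sum_nonneg fun y _ =>
      mul_nonneg (hp.nn x y) (Nn_nonneg F x y)
  obtain ⟨G, hG⟩ : ∃ G, G = ∑ ξ : V → Fin m, gg p r h ξ * F ξ ^ 2 := ⟨_, rfl⟩
  have hn0 : (0 : ℝ) < Fintype.card V := by exact_mod_cast Fintype.card_pos
  have hκ : 0 ≤ κ := (hr.nn (Classical.arbitrary V) (Classical.arbitrary V)).trans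
    (hr.le (Classical.arbitrary V) (Classical.arbitrary V))
  have hsum : ∑ x, ∑ y, p x y = 1 := by
    simp only [hp.reg]
    rw [Finset.sum_const, Finset.card_univ, nsmul_eq_mul]
    field_simp
  -- the first bound
  have h1 : ∑ x, ∑ y, p x y * ∑ ξ : V → Fin m,
        Real.exp (θ * h (ξ x) (ξ y)) * ((F ξ + F (ξ ∘ swap x y)) / 2) ^ 2 ≤
      (1 + θ ^ 2) * A + θ * (∑ x, ∑ y, p x y * En h F x y) - D / 8 := by
    calc _ ≤ ∑ x, ∑ y, p x y * ((1 + θ ^ 2) * A + θ * En h F x y - Nn F x y / 8) := by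
          refine Finset.sum_le_sum fun x _ => Finset.sum_le_sum fun y _ => ?_
          rw [hA]
          exact mul_le_mul_of_nonneg_left (pair_bound hs hh hθ F x y) (hp.nn x y)
      _ = ∑ x, ∑ y, (p x y * ((1 + θ ^ 2) * A) + θ * (p x y * En h F x y) -
            (p x y * Nn F x y) / 8) := by
          refine Finset.sum_congr rfl fun x _ => Finset.sum_congr rfl fun y _ => ?_
          ring
      _ = _ := by
          simp only [Finset.sum_sub_distrib, Finset.sum_add_distrib, ← Finset.sum_mul,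
            ← Finset.mul_sum, ← Finset.sum_div]
          rw [hsum, hD]
          ring
  -- the main term
  have hGeq : ∑ x, ∑ y, p x y * ∑ z, r y z * En h F x z = G := by
    rw [hG]
    have e1 : ∀ ξ : V → Fin m, gg p r h ξ * F ξ ^ 2 =
        ∑ x, ∑ y, ∑ z, p x y * (r y z * (h (ξ x) (ξ z) * F ξ ^ 2)) := by
      intro ξ
      unfold gg
      rw [Finset.sum_mul]
      refine Finset.sum_congr rfl fun x _ => ?_
      rw [Finset.sum_mul]
      refine Finset.sum_congr rfl fun y _ => ?_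
      rw [Finset.mul_sum, Finset.sum_mul]
      refine Finset.sum_congr rfl fun z _ => ?_
      ring
    have e0 : ∑ ξ : V → Fin m, gg p r h ξ * F ξ ^ 2 =
        ∑ x, ∑ y, ∑ z, ∑ ξ : V → Fin m, p x y * (r y z * (h (ξ x) (ξ z) * F ξ ^ 2)) := by
      calc ∑ ξ : V → Fin m, gg p r h ξ * F ξ ^ 2 =
          ∑ ξ : V → Fin m, ∑ x, ∑ y, ∑ z, p x y * (r y z * (h (ξ x) (ξ z) * F ξ ^ 2)) :=
            Finset.sum_congr rfl fun ξ _ => e1 ξ
        _ = ∑ x, ∑ ξ : V → Fin m, ∑ y, ∑ z, p x y * (r y z * (h (ξ x) (ξ z) * F ξ ^ 2)) :=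
            Finset.sum_comm
        _ = ∑ x, ∑ y, ∑ ξ : V → Fin m, ∑ z, p x y * (r y z * (h (ξ x) (ξ z) * F ξ ^ 2)) :=
            Finset.sum_congr rfl fun x _ => Finset.sum_comm
        _ = _ := Finset.sum_congr rfl fun x _ => Finset.sum_congr rfl fun y _ =>
            Finset.sum_comm
    rw [e0]
    refine Finset.sum_congr rfl fun x _ => Finset.sum_congr rfl fun y _ => ?_
    rw [Finset.mul_sum]
    refine Finset.sum_congr rfl fun z _ => ?_
    unfold En
    rw [Finset.mul_sum, Finset.mul_sum]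
  -- the replacement
  have hrep : ∀ a : ℝ, 0 < a → ∀ x y z : V, x ≠ y →
      θ * En h F x y ≤ θ * En h F x z + (Nn F y z / (8 * a) + 8 * a * θ ^ 2 * A +
        if z = x then 2 * |θ| * A else 0) := by
    intro a ha x y z hxy
    have hN := Nn_nonneg F y z
    have hpos : 0 ≤ Nn F y z / (8 * a) := by positivity
    have hpos2 : 0 ≤ 8 * a * θ ^ 2 * A := by positivity
    by_cases hz : z = x
    · rw [if_pos hz]
      have h2 := En_abs hh F x y
      have h3 := En_abs hh F x z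
      rw [← hA] at h2 h3
      have h4 : θ * (En h F x y - En h F x z) ≤ |θ| * (2 * A) := by
        calc θ * (En h F x y - En h F x z) ≤ |θ * (En h F x y - En h F x z)| := le_abs_self _
          _ = |θ| * |En h F x y - En h F x z| := abs_mul _ _
          _ ≤ |θ| * (2 * A) := by
              apply mul_le_mul_of_nonneg_left _ (abs_nonneg θ)
              rw [abs_le] at h2 h3 ⊢
              constructor <;> linarith [h2.1, h2.2, h3.1, h3.2]
      linarith
    · rw [if_neg hz]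
      have h2 := En_diff hh F hxy (Ne.symm hz)
      rw [← hA] at h2
      have h3 : |θ * (En h F x y - En h F x z)| ≤ Nn F y z / (8 * a) + 8 * a * θ ^ 2 * A := by
        apply abs_le_of_sq_le_sq _ (by positivity)
        rw [mul_pow]
        calc θ ^ 2 * (En h F x y - En h F x z) ^ 2 ≤ θ ^ 2 * (4 * A * Nn F y z) :=
              mul_le_mul_of_nonneg_left h2 (sq_nonneg θ)
          _ = 4 * (Nn F y z / (8 * a)) * (8 * a * θ ^ 2 * A) := by
              field_simp
          _ ≤ (Nn F y z / (8 * a) + 8 * a * θ ^ 2 * A) ^ 2 := by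
              nlinarith [sq_nonneg (Nn F y z / (8 * a) - 8 * a * θ ^ 2 * A)]
      have h4 := (abs_le.1 h3).2
      linarith
  -- summation
  have hW : ∀ a : ℝ, 0 < a → τ ≤ a →
      θ * (∑ x, ∑ y, p x y * En h F x y) ≤ θ * G + (D / 8 + 8 * a * θ ^ 2 * A +
        2 * κ * |θ| * A) := by
    intro a ha hτa
    have e1 : θ * (∑ x, ∑ y, p x y * En h F x y) =
        ∑ x, ∑ y, p x y * ∑ z, r y z * (θ * En h F x y) := by
      rw [Finset.mul_sum]
      refine Finset.sum_congr rfl fun x _ => ?_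
      rw [Finset.mul_sum]
      refine Finset.sum_congr rfl fun y _ => ?_
      rw [← Finset.sum_mul, hr.sum]
      ring
    rw [e1]
    have e2 : ∑ x, ∑ y, p x y * ∑ z, r y z * (θ * En h F x y) ≤
        ∑ x, ∑ y, p x y * ∑ z, r y z * (θ * En h F x z + (Nn F y z / (8 * a) +
          8 * a * θ ^ 2 * A + if z = x then 2 * |θ| * A else 0)) := by
      refine Finset.sum_le_sum fun x _ => Finset.sum_le_sum fun y _ => ?_
      by_cases hxy : x = y
      · subst hxy
        rw [hp.diag]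
        simp
      · apply mul_le_mul_of_nonneg_left _ (hp.nn x y)
        exact Finset.sum_le_sum fun z _ =>
          mul_le_mul_of_nonneg_left (hrep a ha x y z hxy) (hr.nn y z)
    refine e2.trans ?_
    have e3 : ∀ x y : V, ∑ z, r y z * (θ * En h F x z + (Nn F y z / (8 * a) +
          8 * a * θ ^ 2 * A + if z = x then 2 * |θ| * A else 0)) =
        θ * (∑ z, r y z * En h F x z) + (∑ z, r y z * Nn F y z) / (8 * a) +
          8 * a * θ ^ 2 * A + r y x * (2 * |θ| * A) := by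
      intro x y
      have e4 : ∀ z, r y z * (θ * En h F x z + (Nn F y z / (8 * a) +
          8 * a * θ ^ 2 * A + if z = x then 2 * |θ| * A else 0)) =
          θ * (r y z * En h F x z) + (r y z * Nn F y z) / (8 * a) +
            r y z * (8 * a * θ ^ 2 * A) + (if z = x then r y z * (2 * |θ| * A) else 0) := by
        intro z
        split_ifs <;> ring
      simp only [e4, Finset.sum_add_distrib, ← Finset.mul_sum, ← Finset.sum_div,
        ← Finset.sum_mul, hr.sum, Finset.sum_ite_eq', Finset.mem_univ, if_true]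
      ring
    simp only [e3]
    have e5 : ∀ x y : V, p x y * (θ * (∑ z, r y z * En h F x z) +
        (∑ z, r y z * Nn F y z) / (8 * a) + 8 * a * θ ^ 2 * A + r y x * (2 * |θ| * A)) =
        θ * (p x y * ∑ z, r y z * En h F x z) + p x y * (∑ z, r y z * Nn F y z) / (8 * a) +
          p x y * (8 * a * θ ^ 2 * A) + p x y * r y x * (2 * |θ| * A) := by
      intro x y
      ring
    simp only [e5, Finset.sum_add_distrib, ← Finset.mul_sum, ← Finset.sum_div,
      ← Finset.sum_mul]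
    have e6 : ∑ x, ∑ y, p x y * ∑ z, r y z * Nn F y z ≤ τ * D := by
      rw [Finset.sum_comm]
      have e7 : ∀ y, ∑ x, p x y * ∑ z, r y z * Nn F y z =
          (∑ z, r y z * Nn F y z) / Fintype.card V := by
        intro y
        rw [← Finset.sum_mul]
        have e8 : ∑ x, p x y = 1 / Fintype.card V := by
          rw [← hp.reg y]
          exact Finset.sum_congr rfl fun x _ => hp.sym x y
        rw [e8]
        ring
      simp only [e7]
      rw [← Finset.sum_div, hD]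
      exact hC m F
    have e9 : ∑ x, ∑ y, p x y * r y x ≤ κ := by
      calc ∑ x, ∑ y, p x y * r y x ≤ ∑ x, ∑ y, p x y * κ :=
            Finset.sum_le_sum fun x _ => Finset.sum_le_sum fun y _ =>
              mul_le_mul_of_nonneg_left (hr.le y x) (hp.nn x y)
        _ = κ := by
            simp only [← Finset.sum_mul]
            rw [hsum, one_mul]
    rw [hsum]
    have e10 : (∑ x, ∑ y, p x y * ∑ z, r y z * Nn F y z) / (8 * a) ≤ D / 8 := by
      rw [div_le_div_iff₀ (by positivity) (by norm_num)]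
      have : τ * D ≤ a * D := mul_le_mul_of_nonneg_right hτa hD0
      nlinarith
    have e11 : (∑ x, ∑ y, p x y * r y x) * (2 * |θ| * A) ≤ κ * (2 * |θ| * A) :=
      mul_le_mul_of_nonneg_right e9 (by positivity)
    have e12 : ∑ x, ∑ y, p x y * ∑ z, r y z * En h F x z = G := hGeq
    rw [e12]
    linarith
  -- the bound with `τ`
  have hfin : ∑ x, ∑ y, p x y * ∑ ξ : V → Fin m,
        Real.exp (θ * h (ξ x) (ξ y)) * ((F ξ + F (ξ ∘ swap x y)) / 2) ^ 2 ≤
      (1 + rho κ τ θ / 2) * A + θ * G := by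
    refine le_of_forall_pos_le_add fun η hη => ?_
    have hden : 0 < 8 * θ ^ 2 * A + 1 := by positivity
    have hε : 0 < η / (8 * θ ^ 2 * A + 1) := by positivity
    have h2 := hW (τ + η / (8 * θ ^ 2 * A + 1)) (by positivity) (by linarith)
    have h3 : 8 * (η / (8 * θ ^ 2 * A + 1)) * θ ^ 2 * A ≤ η := by
      have h4 : 8 * (η / (8 * θ ^ 2 * A + 1)) * θ ^ 2 * A =
          η * (8 * θ ^ 2 * A) / (8 * θ ^ 2 * A + 1) := by ring
      rw [h4, div_le_iff₀ hden]
      nlinarith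
    unfold rho
    nlinarith
  -- the lower bound
  have hg1 : ∀ ξ : V → Fin m, |gg p r h ξ| ≤ 1 := by
    intro ξ
    unfold gg
    calc |∑ x, ∑ y, p x y * ∑ z, r y z * h (ξ x) (ξ z)|
        ≤ ∑ x, |∑ y, p x y * ∑ z, r y z * h (ξ x) (ξ z)| := Finset.abs_sum_le_sum_abs _ _
      _ ≤ ∑ x, ∑ y, |p x y * ∑ z, r y z * h (ξ x) (ξ z)| :=
          Finset.sum_le_sum fun x _ => Finset.abs_sum_le_sum_abs _ _
      _ ≤ ∑ x, ∑ y, p x y := by
          refine Finset.sum_le_sum fun x _ => Finset.sum_le_sum fun y _ => ?_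
          rw [abs_mul, abs_of_nonneg (hp.nn x y)]
          apply mul_le_of_le_one_right (hp.nn x y)
          calc |∑ z, r y z * h (ξ x) (ξ z)| ≤ ∑ z, |r y z * h (ξ x) (ξ z)| :=
                Finset.abs_sum_le_sum_abs _ _
            _ ≤ ∑ z, r y z := by
                refine Finset.sum_le_sum fun z _ => ?_
                rw [abs_mul, abs_of_nonneg (hr.nn y z)]
                exact mul_le_of_le_one_right (hr.nn y z) (hh _ _)
            _ = 1 := hr.sum y
      _ = 1 := hsum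
  have hexp : ∀ ξ : V → Fin m, (1 / 2 : ℝ) ≤ 1 + θ * gg p r h ξ := by
    intro ξ
    have h2 : |θ * gg p r h ξ| ≤ 1 / 2 := by
      rw [abs_mul]
      calc |θ| * |gg p r h ξ| ≤ 1 / 2 * 1 := mul_le_mul hθ (hg1 ξ) (abs_nonneg _) (by norm_num)
        _ = 1 / 2 := by norm_num
    linarith [(abs_le.1 h2).1]
  have hS1 : A + θ * G ≤ ∑ ξ : V → Fin m, Real.exp (θ * gg p r h ξ) * F ξ ^ 2 := by
    rw [hA, hG, Finset.mul_sum, ← Finset.sum_add_distrib]
    refine Finset.sum_le_sum fun ξ _ => ?_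
    have h2 := Real.add_one_le_exp (θ * gg p r h ξ)
    nlinarith [mul_le_mul_of_nonneg_right h2 (sq_nonneg (F ξ))]
  have hS2 : A / 2 ≤ ∑ ξ : V → Fin m, Real.exp (θ * gg p r h ξ) * F ξ ^ 2 := by
    rw [hA, Finset.sum_div]
    refine Finset.sum_le_sum fun ξ _ => ?_
    have h2 := Real.add_one_le_exp (θ * gg p r h ξ)
    have h3 := hexp ξ
    nlinarith [mul_le_mul_of_nonneg_right (h3.trans (by linarith : _ ≤ Real.exp _)) (sq_nonneg (F ξ))]
  have hrho : 0 ≤ rho κ τ θ := by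
    unfold rho
    positivity
  refine hfin.trans ?_
  nlinarith [mul_le_mul_of_nonneg_left hS2 hrho]

end Pool.Agent.Y646.RS
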